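import Pool.Agent.Helper35.PI2.St

set_option autoImplicit false

namespace Helper86.PI2

open Helper35.PI Helper35.PI2
open scoped ContDiff Manifold Topology ENNReal BigOperators
open MeasureTheory Set Filter

theorem hMT (hNR : StNR) (hSM : StSM) : StMT := by
  intro n N f y₀ t₀ L ψ hf hLI hrange hflow hψ hψ0 horth
  have hsm := hSM n N f (y₀, t₀) hf hLI
  have hdv : ∀ i, dv1 (fun y => f (y, t₀)) y₀ i = jg f (y₀, t₀) i :=
    hsm.1.self_of_nhds.2.2.1
  have hnr := hNR n N (fun y => f (y, t₀)) y₀ hLI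
  have hψd : HasFDerivAt ψ (fderiv ℝ ψ (0, t₀)) (0, t₀) :=
    (hψ.differentiableAt (by simp)).hasFDerivAt
  have hfd : HasFDerivAt f (fderiv ℝ f (y₀, t₀)) (y₀, t₀) :=
    (hf.differentiableAt (by simp)).hasFDerivAt
  have hg : HasFDerivAt (fun z : EE n × ℝ => (ψ z, z.2))
      ((fderiv ℝ ψ (0, t₀)).prod (ContinuousLinearMap.snd ℝ (EE n) ℝ)) (0, t₀) :=
    hψd.prodMk hasFDerivAt_snd
  have hcomp : ∀ {V : Type} [NormedAddCommGroup V] [NormedSpace ℝ V] (Φ : EE n × ℝ → V),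
      DifferentiableAt ℝ Φ (y₀, t₀) → HasFDerivAt (fun z : EE n × ℝ => Φ (ψ z, z.2))
        ((fderiv ℝ Φ (y₀, t₀)).comp
          ((fderiv ℝ ψ (0, t₀)).prod (ContinuousLinearMap.snd ℝ (EE n) ℝ))) (0, t₀) := by
    intro V _ _ Φ hΦ
    have h1 : HasFDerivAt Φ (fderiv ℝ Φ (y₀, t₀)) ((fun z : EE n × ℝ => (ψ z, z.2)) (0, t₀)) := by
      simp only [hψ0]
      exact hΦ.hasFDerivAt
    exact h1.comp (0, t₀) hg
  -- abbreviations
  have hjtf : jt f (y₀, t₀) = mcv (fun y => f (y, t₀)) y₀ := hflow.self_of_nhds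
  have hmem : ∀ v : EE n, L v ∈ Submodule.span ℝ (range fun i => dv1 (fun y => f (y, t₀)) y₀ i) := by
    intro v
    rw [← hrange]
    exact ⟨v, rfl⟩
  have horthspan : ∀ u : EE N, (∀ i, (inner ℝ u (dv1 (fun y => f (y, t₀)) y₀ i) : ℝ) = 0) →
      ∀ w ∈ Submodule.span ℝ (range fun i => dv1 (fun y => f (y, t₀)) y₀ i),
        (inner ℝ u w : ℝ) = 0 := by
    intro u hu w hw
    induction hw using Submodule.span_induction with
    | mem x hx =>
      obtain ⟨i, rfl⟩ := hx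
      exact hu i
    | zero => exact inner_zero_right _
    | add x y _ _ hx hy => rw [inner_add_right, hx, hy, add_zero]
    | smul c x _ hx => rw [inner_smul_right, hx, mul_zero]
  have hmcv : ∀ v : EE n, (inner ℝ (mcv (fun y => f (y, t₀)) y₀) (L v) : ℝ) = 0 := by
    intro v
    refine horthspan _ ?_ _ (hmem v)
    intro i
    rw [mcv, sum_inner]
    refine Finset.sum_eq_zero fun k _ => ?_
    rw [sum_inner]
    refine Finset.sum_eq_zero fun l _ => ?_
    rw [real_inner_smul_left, sff, hnr.1, mul_zero]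
  have hdir : ∀ v : EE n,
      (inner ℝ (fderiv ℝ f (y₀, t₀) (fderiv ℝ ψ (0, t₀) (0, 1), 1)) (L v) : ℝ) = 0 := by
    intro v
    have h1 : HasFDerivAt (fun z : EE n × ℝ => f (ψ z, z.2) - f (y₀, t₀) - L z.1)
        ((fderiv ℝ f (y₀, t₀)).comp
          ((fderiv ℝ ψ (0, t₀)).prod (ContinuousLinearMap.snd ℝ (EE n) ℝ))
          - (L.toContinuousLinearMap).comp (ContinuousLinearMap.fst ℝ (EE n) ℝ)) (0, t₀) := by
      have h2 := (hcomp f (hf.differentiableAt (by simp))).sub_const (f (y₀, t₀))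
      have h3 : HasFDerivAt (fun z : EE n × ℝ => L z.1)
          ((L.toContinuousLinearMap).comp (ContinuousLinearMap.fst ℝ (EE n) ℝ)) (0, t₀) :=
        (L.toContinuousLinearMap.hasFDerivAt).comp _ hasFDerivAt_fst
      exact h2.sub h3
    have h4 : HasFDerivAt (fun z : EE n × ℝ => (inner ℝ (L v)
        (f (ψ z, z.2) - f (y₀, t₀) - L z.1) : ℝ))
        ((innerSL ℝ (L v)).comp ((fderiv ℝ f (y₀, t₀)).comp
          ((fderiv ℝ ψ (0, t₀)).prod (ContinuousLinearMap.snd ℝ (EE n) ℝ))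
          - (L.toContinuousLinearMap).comp (ContinuousLinearMap.fst ℝ (EE n) ℝ))) (0, t₀) :=
      (innerSL ℝ (L v)).hasFDerivAt.comp _ h1
    have h5 : (fun z : EE n × ℝ => (inner ℝ (L v)
        (f (ψ z, z.2) - f (y₀, t₀) - L z.1) : ℝ)) =ᶠ[𝓝 ((0 : EE n), t₀)] fun _ => (0 : ℝ) := by
      filter_upwards [horth] with z hz
      rw [real_inner_comm]
      exact hz v
    have h6 : HasFDerivAt (fun z : EE n × ℝ => (inner ℝ (L v)
        (f (ψ z, z.2) - f (y₀, t₀) - L z.1) : ℝ)) (0 : EE n × ℝ →L[ℝ] ℝ) (0, t₀) :=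
      (hasFDerivAt_const (0 : ℝ) _).congr_of_eventuallyEq h5
    have h7 := h4.unique h6
    have h8 := congrArg (fun T : EE n × ℝ →L[ℝ] ℝ => T (0, 1)) h7
    simp only [ContinuousLinearMap.comp_apply, ContinuousLinearMap.sub_apply,
      ContinuousLinearMap.prod_apply, ContinuousLinearMap.coe_snd', ContinuousLinearMap.coe_fst',
      innerSL_apply_apply, ContinuousLinearMap.zero_apply, map_zero, sub_zero] at h8
    rw [real_inner_comm]
    exact h8
  -- splitting
  have hsplit : fderiv ℝ f (y₀, t₀) (fderiv ℝ ψ (0, t₀) (0, 1), 1) =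
      fderiv ℝ f (y₀, t₀) (fderiv ℝ ψ (0, t₀) (0, 1), 0) + jt f (y₀, t₀) := by
    rw [jt, ← map_add]
    simp
  have hlin : fderiv ℝ f (y₀, t₀) (fderiv ℝ ψ (0, t₀) (0, 1), 0) =
      ∑ i, (fderiv ℝ ψ (0, t₀) (0, 1)) i • dv1 (fun y => f (y, t₀)) y₀ i := by
    have h1 : ((fderiv ℝ ψ (0, t₀) (0, 1), 0) : EE n × ℝ) =
        ∑ i, (fderiv ℝ ψ (0, t₀) (0, 1)) i • ((ee i, 0) : EE n × ℝ) := by
      refine Prod.ext ?_ ?_
      · rw [Prod.fst_sum]
        ext j
        simp only [Prod.smul_fst, ee, WithLp.ofLp_sum, Finset.sum_apply, PiLp.smul_apply,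
          EuclideanSpace.single_apply, smul_eq_mul]
        rw [Finset.sum_eq_single j]
        · simp
        · intro b _ hb
          rw [if_neg (Ne.symm hb), mul_zero]
        · intro h
          exact absurd (Finset.mem_univ j) h
      · rw [Prod.snd_sum]
        simp
    rw [h1, map_sum]
    refine Finset.sum_congr rfl fun i _ => ?_
    rw [map_smul, hdv i, jg]
  have hin : fderiv ℝ f (y₀, t₀) (fderiv ℝ ψ (0, t₀) (0, 1), 0) ∈
      LinearMap.range L.toLinearMap := by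
    rw [hrange, hlin]
    exact Submodule.sum_mem _ fun i _ => Submodule.smul_mem _ _ (Submodule.subset_span ⟨i, rfl⟩)
  have hzero : fderiv ℝ f (y₀, t₀) (fderiv ℝ ψ (0, t₀) (0, 1), 0) = 0 := by
    obtain ⟨v, hv⟩ := hin
    have h1 := hdir v
    rw [hsplit, inner_add_left, hjtf, hmcv v, add_zero] at h1
    have h2 : L v = fderiv ℝ f (y₀, t₀) (fderiv ℝ ψ (0, t₀) (0, 1), 0) := hv
    rw [h2] at h1
    exact inner_self_eq_zero.1 h1
  have ha : fderiv ℝ ψ (0, t₀) (0, 1) = 0 := by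
    rw [hlin] at hzero
    have h1 := Fintype.linearIndependent_iff.1 hLI _ hzero
    ext i
    exact h1 i
  refine ⟨ha, fun Φ hΦ => ?_⟩
  have h1 := (hcomp Φ (hΦ.differentiableAt (by simp))).fderiv
  rw [jt, h1, jt]
  simp only [ContinuousLinearMap.comp_apply, ContinuousLinearMap.prod_apply,
    ContinuousLinearMap.coe_snd', ha]

end Helper86.PI2
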